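import Mathlib
import Pool.Agent.N290.RN.Stm
import Pool.Agent.N290.RJ.Un

/-!
# RN/MVF: the automorphism `mvE` of the ball

Leaf of project RN (helper290, page MP_ca0fc2_an). Author: helper36.
-/

set_option autoImplicit false

open Complex MeasureTheory Set Filter Topology
open scoped ENNReal

namespace Pool.Agent.N36.RN

open Pool.Agent.N290.RJ Pool.Agent.N290.RK Pool.Agent.N290.RL Pool.Agent.N290.RM
open Pool.Agent.N290.RN

variable {d : ℕ}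

private theorem ip_p (p : E d) (hp : N p = 1) (z : E d) : ip (z - ip z p • p) p = 0 := by
  have h : z - ip z p • p = z + (-(ip z p)) • p := by rw [neg_smul, sub_eq_add_neg]
  rw [h, ip_add_left, ip_smul_left, ip_self, hp]
  push_cast; ring

theorem ip_mvE (p : E d) (hp : N p = 1) (a : ℂ) (z : E d) :
    ip (mvE p a z) p = (ip z p + a) / (1 + starRingEnd ℂ a * ip z p) := by
  unfold mvE
  rw [ip_smul_left, ip_add_left, ip_smul_left, ip_smul_left, ip_p p hp, ip_self, hp]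
  push_cast; ring

private theorem core_eq (a ω : ℂ) (hω : ω * starRingEnd ℂ ω = 1) (ha : (‖a‖ : ℂ) * ω = a)
    (w : E d) :
    (1 / (1 + starRingEnd ℂ a * w.1)) •
      ((w.1 + a) • ((1 : ℂ), (0 : Fin d → ℂ)) +
        ((Real.sqrt (1 - ‖a‖ ^ 2) : ℝ) : ℂ) • (w - w.1 • ((1 : ℂ), (0 : Fin d → ℂ)))) =
      ω • Ph ‖a‖ ((-(starRingEnd ℂ ω)) • w) := by
  have hca : starRingEnd ℂ a = (‖a‖ : ℂ) * starRingEnd ℂ ω := by
    conv_lhs => rw [← ha]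
    rw [map_mul, Complex.conj_ofReal]
  have hden : (1 : ℂ) - (‖a‖ : ℂ) * (-(starRingEnd ℂ ω) * w.1) = 1 + starRingEnd ℂ a * w.1 := by
    rw [hca]; ring
  apply Prod.ext
  · simp only [Ph, Prod.smul_fst, Prod.fst_add, Prod.fst_sub, smul_eq_mul, mul_one, sub_self,
      mul_zero, add_zero, hden]
    have h1 : ω * ((‖a‖ : ℂ) - -(starRingEnd ℂ ω) * w.1) = w.1 + a := by
      calc ω * ((‖a‖ : ℂ) - -(starRingEnd ℂ ω) * w.1)
          = (‖a‖ : ℂ) * ω + (ω * starRingEnd ℂ ω) * w.1 := by ring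
        _ = w.1 + a := by rw [hω, ha]; ring
    rw [← mul_div_assoc, h1]; ring
  · funext i
    simp only [Ph, Prod.smul_fst, Prod.smul_snd, Prod.snd_add, Prod.snd_sub, smul_eq_mul,
      Pi.smul_apply, Pi.add_apply, Pi.sub_apply, Pi.zero_apply, mul_zero, sub_zero, zero_add, hden]
    have h2 : ω * (-((Real.sqrt (1 - ‖a‖ ^ 2) : ℝ) : ℂ) / (1 + starRingEnd ℂ a * w.1) *
        (-(starRingEnd ℂ ω) * w.2 i)) = (ω * starRingEnd ℂ ω) *
        (((Real.sqrt (1 - ‖a‖ ^ 2) : ℝ) : ℂ) / (1 + starRingEnd ℂ a * w.1) * w.2 i) := by ring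
    rw [h2, hω]; ring

/-- `mvE p a` is a composition of the involution and two unitary maps. -/
theorem mvE_eq (h4b : C4b d) (p : E d) (hp : N p = 1) (a : ℂ) :
    ∃ A Bm : E d →L[ℂ] E d, IsU A ∧ IsU Bm ∧ mvE p a = fun z => A (Ph ‖a‖ (Bm z)) := by
  obtain ⟨U, hU, hbij, hUp⟩ := h4b p
  have hnm : nm p = 1 := by rw [nm, hp, Real.sqrt_one]
  rw [hnm] at hUp
  set e : E d := ((1 : ℂ), (0 : Fin d → ℂ)) with he
  have hUe : U e = p := by rw [he, ← hUp]; simp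
  obtain ⟨ω, hω1, hωa⟩ : ∃ ω : ℂ, ‖ω‖ = 1 ∧ (‖a‖ : ℂ) * ω = a :=
    ⟨Complex.exp (Complex.arg a * I), Complex.norm_exp_ofReal_mul_I _,
      Complex.norm_mul_exp_arg_mul_I a⟩
  have hω : ω * starRingEnd ℂ ω = 1 := by rw [mulconj, hω1]; simp
  let Ue : E d ≃ₗ[ℂ] E d := LinearEquiv.ofBijective (U : E d →ₗ[ℂ] E d) hbij
  let Ui : E d →L[ℂ] E d := LinearMap.toContinuousLinearMap (Ue.symm : E d →ₗ[ℂ] E d)
  have hUi : ∀ z, U (Ui z) = z := fun z => Ue.apply_symm_apply z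
  refine ⟨ω • U, (-(starRingEnd ℂ ω)) • Ui, ?_, ?_, ?_⟩
  · intro ξ
    rw [smul_apply, N_smulc, hω1, hU ξ]; ring
  · intro ξ
    rw [smul_apply, N_smulc, norm_neg, RCLike.norm_conj, hω1, one_pow,
      one_mul, ← hU (Ui ξ), hUi]
  · funext z
    have hz : z = U (Ui z) := (hUi z).symm
    have hip : ip z p = (Ui z).1 := by
      conv_lhs => rw [hz, ← hUe]
      rw [hU.ip]
      simp [ip, he]
    rw [smul_apply, smul_apply, ← map_smul, ← core_eq a ω hω hωa (Ui z)]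
    unfold mvE
    rw [hip, map_smul, map_add, map_smul, map_smul, map_sub, map_smul, hUi]
    rw [← he, hUe]

theorem MVF_of (d : ℕ) (h4b : C4b d) (h6 : C6 d) : MVF d := by
  intro p hp a ha
  obtain ⟨A, Bm, hA, hB, hE⟩ := mvE_eq h4b p hp a
  have hx0 : 0 ≤ ‖a‖ := norm_nonneg a
  have hPh : ∀ ξ ∈ B d, Ph ‖a‖ ξ ∈ B d := by
    intro ξ hξ
    have h1 := (h6 ‖a‖ hx0 ha ξ hξ).2.2.1
    have h2 : N ξ < 1 := hξ
    have h3 : ‖ξ.1‖ ^ 2 ≤ N ξ := by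
      unfold N
      have : 0 ≤ ∑ i, ‖ξ.2 i‖ ^ 2 := by positivity
      linarith
    have h4 : ‖ξ.1‖ < 1 := by
      have : ‖ξ.1‖ ^ 2 < 1 := lt_of_le_of_lt h3 h2
      nlinarith [norm_nonneg ξ.1]
    have h5 : (1 : ℂ) - (‖a‖ : ℂ) * ξ.1 ≠ 0 := by
      intro h
      have h6 : (‖a‖ : ℂ) * ξ.1 = 1 := (sub_eq_zero.mp h).symm
      have h7 : ‖(‖a‖ : ℂ) * ξ.1‖ = 1 := by rw [h6, norm_one]
      rw [norm_mul, Complex.norm_real, norm_norm] at h7
      nlinarith [norm_nonneg ξ.1]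
    have h8 : 0 < ‖(1 : ℂ) - (‖a‖ : ℂ) * ξ.1‖ := norm_pos_iff.mpr h5
    have h9 : 0 < 1 - ‖a‖ ^ 2 := by nlinarith
    have h10 : 0 < 1 - N (Ph ‖a‖ ξ) := by
      rw [h1]
      have : 0 < 1 - N ξ := by linarith
      positivity
    rw [mem_B]; linarith
  have hBm : ∀ z ∈ B d, Bm z ∈ B d := fun z hz => (hB.mem z).mpr hz
  have hD : ∀ z ∈ B d, HasFDerivAt (mvE p a)
      (A.comp ((fderiv ℂ (Ph ‖a‖) (Bm z)).comp Bm)) z := by
    intro z hz
    rw [hE]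
    have h1 : HasFDerivAt (Ph ‖a‖) (fderiv ℂ (Ph ‖a‖) (Bm z)) (Bm z) :=
      (h6 ‖a‖ hx0 ha (Bm z) (hBm z hz)).1.hasFDerivAt
    have h2 : HasFDerivAt (fun z => Ph ‖a‖ (Bm z)) ((fderiv ℂ (Ph ‖a‖) (Bm z)).comp Bm) z :=
      h1.comp z Bm.hasFDerivAt
    exact A.hasFDerivAt.comp z h2
  refine ⟨?_, ?_, fun z _ => ip_mvE p hp a z, ?_⟩
  · intro z hz
    rw [hE]
    exact (hA.mem _).mpr (hPh _ (hBm z hz))
  · intro z hz
    exact (hD z hz).differentiableAt.differentiableWithinAt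
  · intro z hz ξ
    rw [(hD z hz).fderiv]
    have h1 : (A.comp ((fderiv ℂ (Ph ‖a‖) (Bm z)).comp Bm)) ξ =
        A (dPh ‖a‖ (Bm z) (Bm ξ)) := by
      rw [ContinuousLinearMap.comp_apply, ContinuousLinearMap.comp_apply,
        (h6 ‖a‖ hx0 ha (Bm z) (hBm z hz)).2.1]
    rw [h1, hE, hA.len, (h6 ‖a‖ hx0 ha (Bm z) (hBm z hz)).2.2.2.1, hB.len]

end Pool.Agent.N36.RN
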